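import Pool.Agent.H61.KU.TA

/-!
# Kuiper board, module DOX: invariance of domain with target `PN 2`
-/

open Topology Set
open Pool.Agent.H59 Pool.Agent.H64.LB Pool.Agent.H61.KU

namespace Pool.Agent.H16.KU

theorem pf_dox (hD : T_DOM) (hC : T_CHP) : T_DOX := by
  intro U g hU hg hinj
  rw [isOpen_iff_mem_nhds]
  rintro _ ⟨x, hx, rfl⟩
  obtain ⟨c, hc, hc0⟩ := hC (g x)
  -- the open set
  set V : Set (Fin 4 → ℝ) := U ∩ g ⁻¹' (range c) with hV
  have hVo : IsOpen V := hg.isOpen_inter_preimage hU hc.isOpen_range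
  have hxV : x ∈ V := ⟨hx, ⟨0, hc0⟩⟩
  -- an inverse of c on its range
  have hinv : ∀ y, ∃ z, y ∈ range c → c z = y := by
    intro y
    by_cases h : y ∈ range c
    · obtain ⟨z, hz⟩ := h
      exact ⟨z, fun _ => hz⟩
    · exact ⟨0, fun h' => absurd h' h⟩
  choose d hd using hinv
  have hcg : ∀ y ∈ V, c (d (g y)) = g y := fun y hy => hd (g y) hy.2
  have hcont : ContinuousOn (fun y => d (g y)) V := by
    rw [hc.isEmbedding.isInducing.continuousOn_iff]
    have h1 : ContinuousOn g V := hg.mono inter_subset_left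
    exact h1.congr (fun y hy => hcg y hy)
  have hinj' : InjOn (fun y => d (g y)) V := by
    intro y hy z hz h
    apply hinj hy.1 hz.1
    rw [← hcg y hy, ← hcg z hz]
    exact congrArg c h
  have ho := hD V (fun y => d (g y)) hVo hcont hinj'
  have ho2 : IsOpen (c '' ((fun y => d (g y)) '' V)) := hc.isOpenMap _ ho
  have he : c '' ((fun y => d (g y)) '' V) = g '' V := by
    rw [image_image]
    exact image_congr (fun y hy => hcg y hy)
  rw [he] at ho2
  exact Filter.mem_of_superset (ho2.mem_nhds ⟨x, hxV, rfl⟩) (image_mono inter_subset_left)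

end Pool.Agent.H16.KU
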